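import Pool.Agent.Helper63.P705.BS.Goals

/-!
# MP_705522_gt: packet BS-BD
-/

namespace Pool.Agent.Helper13.BS

open Pool.Agent.Helper63.P705

theorem nonneg_of_deriv {f f' : ℝ → ℝ} (h : ∀ x, HasDerivAt f (f' x) x) (h0 : f 0 = 0)
    (hf : ∀ x, 0 ≤ x → 0 ≤ f' x) : ∀ x, 0 ≤ x → 0 ≤ f x := by
  intro x hx
  have hm : MonotoneOn f (Set.Ici 0) := by
    refine monotoneOn_of_deriv_nonneg (convex_Ici 0)
      (fun y _ => (h y).continuousAt.continuousWithinAt)
      (fun y _ => (h y).differentiableAt.differentiableWithinAt) ?_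
    intro y hy
    rw [interior_Ici] at hy
    rw [(h y).deriv]
    exact hf y (le_of_lt hy)
  have := hm (Set.mem_Ici.mpr le_rfl) (Set.mem_Ici.mpr hx) hx
  rwa [h0] at this

theorem cos2 : ∀ x : ℝ, 0 ≤ x → 0 ≤ x - Real.sin x := by
  refine nonneg_of_deriv (f' := fun x => 1 - Real.cos x) (fun x => ?_) (by simp) fun x _ => ?_
  · exact (hasDerivAt_id x).sub (Real.hasDerivAt_sin x)
  · linarith [Real.cos_le_one x]

theorem cos3 : ∀ x : ℝ, 0 ≤ x → 0 ≤ Real.cos x - (1 - x ^ 2 / 2) := by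
  refine nonneg_of_deriv (f' := fun x => x - Real.sin x) (fun x => ?_) (by simp) fun x hx => ?_
  · have h1 := (Real.hasDerivAt_cos x).sub
      ((hasDerivAt_const x (1 : ℝ)).sub ((hasDerivAt_pow 2 x).div_const 2))
    refine h1.congr_deriv ?_
    push_cast
    ring
  · exact cos2 x hx

theorem sin3 : ∀ x : ℝ, 0 ≤ x → 0 ≤ Real.sin x - (x - x ^ 3 / 6) := by
  refine nonneg_of_deriv (f' := fun x => Real.cos x - (1 - x ^ 2 / 2)) (fun x => ?_) (by simp)
    fun x hx => ?_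
  · have h1 := (Real.hasDerivAt_sin x).sub
      ((hasDerivAt_id x).sub ((hasDerivAt_pow 3 x).div_const 6))
    refine h1.congr_deriv ?_
    push_cast
    ring
  · exact cos3 x hx

theorem cos4 : ∀ x : ℝ, 0 ≤ x → 0 ≤ (1 - x ^ 2 / 2 + x ^ 4 / 24) - Real.cos x := by
  refine nonneg_of_deriv (f' := fun x => Real.sin x - (x - x ^ 3 / 6)) (fun x => ?_) (by simp)
    fun x hx => ?_
  · have h1 := (((hasDerivAt_const x (1 : ℝ)).sub ((hasDerivAt_pow 2 x).div_const 2)).add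
      ((hasDerivAt_pow 4 x).div_const 24)).sub (Real.hasDerivAt_cos x)
    refine h1.congr_deriv ?_
    push_cast
    ring
  · exact sin3 x hx

theorem sin5 : ∀ x : ℝ, 0 ≤ x → 0 ≤ (x - x ^ 3 / 6 + x ^ 5 / 120) - Real.sin x := by
  refine nonneg_of_deriv (f' := fun x => (1 - x ^ 2 / 2 + x ^ 4 / 24) - Real.cos x)
    (fun x => ?_) (by simp) fun x hx => ?_
  · have h1 := (((hasDerivAt_id x).sub ((hasDerivAt_pow 3 x).div_const 6)).add
      ((hasDerivAt_pow 5 x).div_const 120)).sub (Real.hasDerivAt_sin x)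
    refine h1.congr_deriv ?_
    push_cast
    ring
  · exact cos4 x hx

theorem cos6 : ∀ x : ℝ, 0 ≤ x →
    0 ≤ Real.cos x - (1 - x ^ 2 / 2 + x ^ 4 / 24 - x ^ 6 / 720) := by
  refine nonneg_of_deriv (f' := fun x => (x - x ^ 3 / 6 + x ^ 5 / 120) - Real.sin x)
    (fun x => ?_) (by simp) fun x hx => ?_
  · have h1 := (Real.hasDerivAt_cos x).sub
      ((((hasDerivAt_const x (1 : ℝ)).sub ((hasDerivAt_pow 2 x).div_const 2)).add
      ((hasDerivAt_pow 4 x).div_const 24)).sub ((hasDerivAt_pow 6 x).div_const 720))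
    refine h1.congr_deriv ?_
    push_cast
    ring
  · exact sin5 x hx

theorem sin7 : ∀ x : ℝ, 0 ≤ x →
    0 ≤ Real.sin x - (x - x ^ 3 / 6 + x ^ 5 / 120 - x ^ 7 / 5040) := by
  refine nonneg_of_deriv (f' := fun x => Real.cos x - (1 - x ^ 2 / 2 + x ^ 4 / 24 - x ^ 6 / 720))
    (fun x => ?_) (by simp) fun x hx => ?_
  · have h1 := (Real.hasDerivAt_sin x).sub
      ((((hasDerivAt_id x).sub ((hasDerivAt_pow 3 x).div_const 6)).add
      ((hasDerivAt_pow 5 x).div_const 120)).sub ((hasDerivAt_pow 7 x).div_const 5040))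
    refine h1.congr_deriv ?_
    push_cast
    ring
  · exact cos6 x hx

theorem bD : Pool.Agent.Helper63.P705.BD := by
  intro a h1 h2
  have hpi : (pi60 : ℝ) / 2 ^ 60 ≤ Real.pi := by
    refine le_trans ?_ Real.pi_gt_d20.le
    unfold pi60
    norm_num
  set X : ℕ := pi60 * a / 16384 with hX
  have hs : sinL a = ((5040 * (X * 2 ^ 360) + 42 * (X ^ 5 * 2 ^ 120)) -
      (840 * (X ^ 3 * 2 ^ 240) + X ^ 7)) / (5040 * (1 * 2 ^ 360)) := by
    unfold sinL
    rw [sq_eq]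
    show ((5040 * ((pi60 * a) >>> 14 <<< 360) + 42 * (((pi60 * a) >>> 14) ^ 5 <<< 120)) -
      (840 * (((pi60 * a) >>> 14) ^ 3 <<< 240) + ((pi60 * a) >>> 14) ^ 7)) /
        (5040 * (1 <<< 360)) = _
    rw [Nat.shiftRight_eq_div_pow, show pi60 * a / 2 ^ 14 = X from rfl]
    simp only [Nat.shiftLeft_eq]
  set x : ℝ := (X : ℝ) / 2 ^ 60 with hx
  have hXx : (X : ℝ) = x * 2 ^ 60 := by rw [hx]; field_simp
  have hx0 : 0 ≤ x := by positivity
  have ha1 : (2048 : ℝ) ≤ a := by exact_mod_cast h1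
  have ha2 : (a : ℝ) ≤ 4096 := by exact_mod_cast h2
  have hXle : (X : ℝ) * 16384 ≤ pi60 * a := by
    exact_mod_cast Nat.div_mul_le_self (pi60 * a) 16384
  have hXge : (pi60 : ℝ) * a ≤ (X + 1) * 16384 := by
    have : pi60 * a < (X + 1) * 16384 := by
      have := Nat.lt_div_mul_add (a := pi60 * a) (b := 16384) (by norm_num)
      rw [← hX] at this
      omega
    exact_mod_cast this.le
  have hxy : x ≤ Real.pi * (a / 8192) / 2 := by
    have h3 : x * 16384 ≤ (pi60 : ℝ) / 2 ^ 60 * a := by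
      rw [hx, div_mul_eq_mul_div, div_mul_eq_mul_div]
      exact div_le_div_of_nonneg_right hXle (by positivity)
    have h4 : (pi60 : ℝ) / 2 ^ 60 * a ≤ Real.pi * a :=
      mul_le_mul_of_nonneg_right hpi (by positivity)
    linarith
  have hp315 : Real.pi < 3.15 := Real.pi_lt_d2
  have hx1 : x ≤ 0.8 := by
    have h3 : Real.pi * (a / 8192) / 2 ≤ 0.8 := by
      have h4 : Real.pi * a ≤ 3.15 * 4096 :=
        mul_le_mul hp315.le ha2 (by positivity) (by norm_num)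
      have h5 : Real.pi * (a / 8192) / 2 = Real.pi * a / 16384 := by ring
      rw [h5, div_le_iff₀ (by norm_num)]
      linarith
    exact hxy.trans h3
  have hx2 : 0.39 ≤ x := by
    have h3 : (3.14 : ℝ) * 2 ^ 60 ≤ pi60 := by
      unfold pi60
      norm_num
    have h4 : (3.14 : ℝ) * 2 ^ 60 * 2048 ≤ (pi60 : ℝ) * a :=
      mul_le_mul h3 ha1 (by norm_num) (by positivity)
    rw [hx, le_div_iff₀ (by positivity)]
    have h5 : (3.14 : ℝ) * 2 ^ 60 * 2048 ≤ (X + 1) * 16384 := h4.trans hXge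
    have h6 : (16384 : ℝ) ≤ 0.001 * 2 ^ 60 * 16384 := by norm_num
    nlinarith
  set p : ℝ := x - x ^ 3 / 6 + x ^ 5 / 120 - x ^ 7 / 5040 with hp
  have hplow : 0.3 ≤ p := by
    have h3 : x ^ 2 ≤ 0.64 := by nlinarith
    have h4 : x ^ 3 ≤ 0.64 * x := by
      have : x ^ 3 = x ^ 2 * x := by ring
      rw [this]
      exact mul_le_mul_of_nonneg_right h3 hx0
    have h5 : x ^ 7 ≤ x ^ 5 := by
      have h6 : x ^ 7 = x ^ 5 * x ^ 2 := by ring
      rw [h6]
      exact mul_le_of_le_one_right (by positivity) (by linarith)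
    have h7 : 0 ≤ x ^ 5 := by positivity
    rw [hp]
    linarith
  have hN : ((5040 * (X * 2 ^ 360) + 42 * (X ^ 5 * 2 ^ 120) : ℕ) : ℝ) -
      ((840 * (X ^ 3 * 2 ^ 240) + X ^ 7 : ℕ) : ℝ) = 5040 * 2 ^ 360 * (2 ^ 60 * p) := by
    have e1 : (2 : ℝ) ^ 360 = (2 ^ 60) ^ 6 := by rw [← pow_mul]
    have e2 : (2 : ℝ) ^ 240 = (2 ^ 60) ^ 4 := by rw [← pow_mul]
    have e3 : (2 : ℝ) ^ 120 = (2 ^ 60) ^ 2 := by rw [← pow_mul]
    simp only [Nat.cast_add, Nat.cast_mul, Nat.cast_pow, Nat.cast_ofNat]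
    rw [e1, e2, e3, hXx, hp]
    generalize (2 : ℝ) ^ 60 = T
    ring
  have hle : 840 * (X ^ 3 * 2 ^ 240) + X ^ 7 ≤ 5040 * (X * 2 ^ 360) + 42 * (X ^ 5 * 2 ^ 120) := by
    have h3 : (0 : ℝ) ≤ 5040 * 2 ^ 360 * (2 ^ 60 * p) := by
      have : 0 ≤ p := by linarith
      positivity
    rw [← hN, sub_nonneg] at h3
    exact_mod_cast h3
  have hNc : (((5040 * (X * 2 ^ 360) + 42 * (X ^ 5 * 2 ^ 120)) -
      (840 * (X ^ 3 * 2 ^ 240) + X ^ 7) : ℕ) : ℝ) = 5040 * 2 ^ 360 * (2 ^ 60 * p) := by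
    rw [Nat.cast_sub hle]
    exact hN
  constructor
  · have h3 : (sinL a : ℝ) ≤ 2 ^ 60 * p := by
      rw [hs]
      refine Nat.cast_div_le.trans ?_
      rw [hNc, div_le_iff₀ (by positivity)]
      refine le_of_eq ?_
      push_cast
      ring
    have h4 : p ≤ Real.sin x := by
      have := sin7 x hx0
      linarith
    have h5 : Real.sin x ≤ Real.sin (Real.pi * (a / 8192) / 2) := by
      refine Real.sin_le_sin_of_le_of_le_pi_div_two ?_ ?_ hxy
      · have := Real.pi_pos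
        linarith
      · have h6 : (a : ℝ) / 8192 ≤ 1 := by
          rw [div_le_one (by norm_num)]
          linarith
        have := mul_le_of_le_one_right Real.pi_pos.le h6
        linarith
    calc (sinL a : ℝ) ≤ 2 ^ 60 * p := h3
      _ ≤ 2 ^ 60 * Real.sin (Real.pi * (a / 8192) / 2) := by
        have := h4.trans h5
        exact mul_le_mul_of_nonneg_left this (by positivity)
  · rw [hs, Nat.le_div_iff_mul_le (by positivity)]
    have h3 : ((2 ^ 58 * (5040 * (1 * 2 ^ 360)) : ℕ) : ℝ) ≤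
        (((5040 * (X * 2 ^ 360) + 42 * (X ^ 5 * 2 ^ 120)) -
          (840 * (X ^ 3 * 2 ^ 240) + X ^ 7) : ℕ) : ℝ) := by
      rw [hNc]
      have h4 : (2 : ℝ) ^ 58 ≤ 2 ^ 60 * p := by
        have h5 : (2 : ℝ) ^ 58 = 2 ^ 60 * 0.25 := by norm_num
        rw [h5]
        exact mul_le_mul_of_nonneg_left (by linarith) (by positivity)
      have h6 : ((2 ^ 58 * (5040 * (1 * 2 ^ 360)) : ℕ) : ℝ) = 5040 * 2 ^ 360 * 2 ^ 58 := by
        rw [Nat.cast_mul, Nat.cast_mul, Nat.cast_mul, Nat.cast_pow, Nat.cast_pow]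
        simp only [Nat.cast_ofNat, Nat.cast_one, one_mul]
        exact mul_comm _ _
      rw [h6]
      exact mul_le_mul_of_nonneg_left h4 (by positivity)
    exact_mod_cast h3

end Pool.Agent.Helper13.BS
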